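import Pool.Agent.helper75.IQ.Spec

/-!
# MP_84f457_gt: row MON
-/

set_option autoImplicit false

namespace Pool.Agent.helper75.IQ

open MeasureTheory Set Filter Topology

/-- a continuous approximation of the indicator function of `[-r, r]` -/
noncomputable def MON_phi (r η u : ℝ) : ℝ := max 0 (min 1 (1 + (r - |u|) / η))

lemma MON_phi_cont (r η : ℝ) : Continuous (MON_phi r η) := by
  unfold MON_phi
  fun_prop

lemma MON_phi_nonneg (r η u : ℝ) : 0 ≤ MON_phi r η u := le_max_left _ _

lemma MON_phi_le (r η u : ℝ) : MON_phi r η u ≤ 1 := max_le zero_le_one (min_le_left _ _)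

lemma MON_phi_one (r η u : ℝ) (hη : 0 < η) (hu : |u| ≤ r) : MON_phi r η u = 1 := by
  unfold MON_phi
  have h1 : 0 ≤ (r - |u|) / η := div_nonneg (by linarith) hη.le
  rw [min_eq_left (by linarith), max_eq_right zero_le_one]

lemma MON_phi_zero (r η u : ℝ) (hη : 0 < η) (hu : r + η ≤ |u|) : MON_phi r η u = 0 := by
  unfold MON_phi
  have h1 : (r - |u|) / η ≤ -1 := by
    rw [div_le_iff₀ hη]
    linarith
  rw [max_eq_left]
  exact (min_le_right _ _).trans (by linarith)

/-- the test function -/
noncomputable def MON_zeta (r η a b v : ℝ) : ℝ := ∫ u in (v - b)..(v - a), MON_phi r η u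

lemma MON_zeta_deriv (r η a b v : ℝ) :
    HasDerivAt (MON_zeta r η a b) (MON_phi r η (v - a) - MON_phi r η (v - b)) v := by
  have hc := MON_phi_cont r η
  have hd : ∀ y : ℝ, HasDerivAt (fun y => ∫ u in (0 : ℝ)..y, MON_phi r η u) (MON_phi r η y) y :=
    fun y => intervalIntegral.integral_hasDerivAt_right (hc.intervalIntegrable _ _)
      (hc.stronglyMeasurableAtFilter _ _) hc.continuousAt
  have h1 : HasDerivAt (fun v => ∫ u in (0 : ℝ)..(v - a), MON_phi r η u) (MON_phi r η (v - a)) v := by
    have := (hd (v - a)).comp v ((hasDerivAt_id v).sub_const a)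
    rw [mul_one] at this
    exact this
  have h2 : HasDerivAt (fun v => ∫ u in (0 : ℝ)..(v - b), MON_phi r η u) (MON_phi r η (v - b)) v := by
    have := (hd (v - b)).comp v ((hasDerivAt_id v).sub_const b)
    rw [mul_one] at this
    exact this
  have h3 : MON_zeta r η a b = fun v => (∫ u in (0 : ℝ)..(v - a), MON_phi r η u) -
      ∫ u in (0 : ℝ)..(v - b), MON_phi r η u := by
    ext v
    unfold MON_zeta
    rw [intervalIntegral.integral_interval_sub_left (hc.intervalIntegrable _ _)
      (hc.intervalIntegrable _ _)]
  rw [h3]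
  exact h1.sub h2

lemma MON_int (r η a : ℝ) (hη : 0 < η) : Integrable (fun v => MON_phi r η (v - a)) volume := by
  refine (MON_phi_cont r η |>.comp (continuous_sub_right a)).integrable_of_hasCompactSupport ?_
  refine HasCompactSupport.intro (K := Icc (a - (r + η)) (a + (r + η))) isCompact_Icc ?_
  intro v hv
  change MON_phi r η (v - a) = 0
  refine MON_phi_zero r η _ hη ?_
  by_contra h
  push Not at h
  rw [abs_lt] at h
  exact hv ⟨by linarith [h.1], by linarith [h.2]⟩

lemma MON_ineq (S : Set ℝ) (_hS : MeasurableSet S)
    (h : ∀ ζ : ℝ → ℝ, ContDiff ℝ 1 ζ → HasCompactSupport ζ → (∀ v, 0 ≤ ζ v) →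
      0 ≤ ∫ v in S, deriv ζ v) (a b r : ℝ) (hab : a ≤ b) (_hr : 0 < r) :
    volume.real (S ∩ Metric.closedBall b r) ≤ volume.real (S ∩ Metric.closedBall a r) := by
  refine le_of_forall_pos_le_add fun e he => ?_
  set η : ℝ := e / 2 with hη
  have hη0 : 0 < η := by positivity
  have hc := MON_phi_cont r η
  have hder : deriv (MON_zeta r η a b) = fun v => MON_phi r η (v - a) - MON_phi r η (v - b) :=
    funext fun v => (MON_zeta_deriv r η a b v).deriv
  have h1 := h (MON_zeta r η a b) (by
    rw [contDiff_one_iff_deriv]
    refine ⟨fun v => (MON_zeta_deriv r η a b v).differentiableAt, ?_⟩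
    rw [hder]
    exact (hc.comp (continuous_sub_right a)).sub (hc.comp (continuous_sub_right b))) (by
    refine HasCompactSupport.intro (K := Icc (a - (r + η)) (b + (r + η))) isCompact_Icc ?_
    intro v hv
    unfold MON_zeta
    have hz : ∀ u ∈ uIcc (v - b) (v - a), MON_phi r η u = 0 := by
      intro u hu
      rw [uIcc_of_le (by linarith)] at hu
      refine MON_phi_zero r η u hη0 ?_
      by_cases hv1 : v < a - (r + η)
      · rw [le_abs]
        right
        linarith [hu.2]
      · have hv2 : b + (r + η) < v := by
          by_contra hcon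
          exact hv ⟨not_lt.1 hv1, not_lt.1 hcon⟩
        rw [le_abs]
        left
        linarith [hu.1]
    rw [intervalIntegral.integral_congr (g := fun _ => (0 : ℝ)) hz]
    simp) (by
    intro v
    exact intervalIntegral.integral_nonneg (by linarith) (fun u _ => MON_phi_nonneg r η u))
  rw [hder, integral_sub (MON_int r η a hη0).integrableOn (MON_int r η b hη0).integrableOn] at h1
  -- lower bound
  have h2 : volume.real (S ∩ Metric.closedBall b r) ≤ ∫ v in S, MON_phi r η (v - b) := by
    have e1 : volume.real (S ∩ Metric.closedBall b r) =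
        ∫ v in S, (Metric.closedBall b r).indicator (fun _ => (1 : ℝ)) v := by
      rw [setIntegral_indicator Metric.isClosed_closedBall.measurableSet]
      simp
    rw [e1]
    refine setIntegral_mono ?_ (MON_int r η b hη0).integrableOn (fun v => ?_)
    · refine Integrable.integrableOn ?_
      rw [integrable_indicator_iff Metric.isClosed_closedBall.measurableSet]
      exact integrableOn_const (by
        rw [Real.volume_closedBall]
        exact ENNReal.ofReal_ne_top)
    · by_cases hv : v ∈ Metric.closedBall b r
      · rw [indicator_of_mem hv]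
        rw [Metric.mem_closedBall, Real.dist_eq] at hv
        rw [MON_phi_one r η _ hη0 hv]
      · rw [indicator_of_notMem hv]
        exact MON_phi_nonneg r η _
  -- upper bound
  have h3 : ∫ v in S, MON_phi r η (v - a) ≤ volume.real (S ∩ Metric.closedBall a (r + η)) := by
    have e1 : volume.real (S ∩ Metric.closedBall a (r + η)) =
        ∫ v in S, (Metric.closedBall a (r + η)).indicator (fun _ => (1 : ℝ)) v := by
      rw [setIntegral_indicator Metric.isClosed_closedBall.measurableSet]
      simp
    rw [e1]
    refine setIntegral_mono (MON_int r η a hη0).integrableOn ?_ (fun v => ?_)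
    · refine Integrable.integrableOn ?_
      rw [integrable_indicator_iff Metric.isClosed_closedBall.measurableSet]
      exact integrableOn_const (by
        rw [Real.volume_closedBall]
        exact ENNReal.ofReal_ne_top)
    · by_cases hv : v ∈ Metric.closedBall a (r + η)
      · rw [indicator_of_mem hv]
        exact MON_phi_le r η _
      · rw [indicator_of_notMem hv]
        rw [Metric.mem_closedBall, Real.dist_eq, not_le] at hv
        rw [MON_phi_zero r η _ hη0 hv.le]
  have h4 : volume.real (S ∩ Metric.closedBall a (r + η)) ≤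
      volume.real (S ∩ Metric.closedBall a r) + e := by
    have hsub : S ∩ Metric.closedBall a (r + η) ⊆
        (S ∩ Metric.closedBall a r) ∪ (Icc (a - (r + η)) (a - r) ∪ Icc (a + r) (a + (r + η))) := by
      intro v hv
      have hv2 := hv.2
      rw [Metric.mem_closedBall, Real.dist_eq, abs_le] at hv2
      by_cases h5 : |v - a| ≤ r
      · left
        exact ⟨hv.1, by rw [Metric.mem_closedBall, Real.dist_eq]; exact h5⟩
      · right
        rw [not_le, lt_abs] at h5
        rcases h5 with h5 | h5
        · right
          exact ⟨by linarith, by linarith [hv2.2]⟩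
        · left
          exact ⟨by linarith [hv2.1], by linarith⟩
    have hfin1 : volume (S ∩ Metric.closedBall a r) ≠ ⊤ :=
      ((measure_mono inter_subset_right).trans_lt (by
        rw [Real.volume_closedBall]; exact ENNReal.ofReal_lt_top)).ne
    have hi1 : volume.real (Icc (a - (r + η)) (a - r)) = η := by
      rw [Real.volume_real_Icc_of_le (by linarith)]
      ring
    have hi2 : volume.real (Icc (a + r) (a + (r + η))) = η := by
      rw [Real.volume_real_Icc_of_le (by linarith)]
      ring
    have hfin2 : volume (Icc (a - (r + η)) (a - r) ∪ Icc (a + r) (a + (r + η))) ≠ ⊤ :=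
      ((measure_union_le _ _).trans_lt (by
        rw [Real.volume_Icc, Real.volume_Icc]
        exact ENNReal.add_lt_top.2 ⟨ENNReal.ofReal_lt_top, ENNReal.ofReal_lt_top⟩)).ne
    calc volume.real (S ∩ Metric.closedBall a (r + η))
        ≤ volume.real ((S ∩ Metric.closedBall a r) ∪
            (Icc (a - (r + η)) (a - r) ∪ Icc (a + r) (a + (r + η)))) := by
          refine measureReal_mono hsub ?_
          exact ((measure_union_le _ _).trans_lt
            (ENNReal.add_lt_top.2 ⟨hfin1.lt_top, hfin2.lt_top⟩)).ne
      _ ≤ volume.real (S ∩ Metric.closedBall a r) +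
            volume.real (Icc (a - (r + η)) (a - r) ∪ Icc (a + r) (a + (r + η))) :=
          measureReal_union_le _ _
      _ ≤ volume.real (S ∩ Metric.closedBall a r) + (η + η) := by
          have := measureReal_union_le (μ := volume) (Icc (a - (r + η)) (a - r))
            (Icc (a + r) (a + (r + η)))
          rw [hi1, hi2] at this
          linarith
      _ = volume.real (S ∩ Metric.closedBall a r) + e := by
          rw [hη]
          ring
  linarith [h1, h2, h3, h4]

theorem MON : MON_stmt := by
  intro S C hS hlo hhi h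
  have hdens := Besicovitch.ae_tendsto_measure_inter_div_of_measurableSet (volume : Measure ℝ) hS
  -- the good points
  set G : Set ℝ := {x | Tendsto (fun r => volume (S ∩ Metric.closedBall x r) /
      volume (Metric.closedBall x r)) (𝓝[>] 0) (𝓝 (S.indicator 1 x)) ∧ (x < -C → x ∈ S) ∧
      (C < x → x ∉ S)} with hG
  have hGae : ∀ᵐ x : ℝ, x ∈ G := by
    filter_upwards [hdens, hlo, hhi] with x h1 h2 h3
    exact ⟨h1, h2, h3⟩
  have key : ∀ a ∈ G, ∀ b ∈ G, a < b → b ∈ S → a ∈ S := by
    intro a ha b hb hab hbS
    by_contra haS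
    have h1 := ha.1
    have h2 := hb.1
    rw [indicator_of_notMem haS] at h1
    rw [indicator_of_mem hbS] at h2
    have hle : ∀ᶠ r in 𝓝[>] (0 : ℝ), volume (S ∩ Metric.closedBall b r) /
        volume (Metric.closedBall b r) ≤ volume (S ∩ Metric.closedBall a r) /
        volume (Metric.closedBall a r) := by
      filter_upwards [self_mem_nhdsWithin] with r hr
      have hr' : (0 : ℝ) < r := hr
      rw [Real.volume_closedBall, Real.volume_closedBall]
      refine ENNReal.div_le_div_right ?_ _
      have h5 := MON_ineq S hS h a b r hab.le hr'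
      have hfa : volume (S ∩ Metric.closedBall a r) ≠ ⊤ :=
        ((measure_mono inter_subset_right).trans_lt (by
          rw [Real.volume_closedBall]; exact ENNReal.ofReal_lt_top)).ne
      have hfb : volume (S ∩ Metric.closedBall b r) ≠ ⊤ :=
        ((measure_mono inter_subset_right).trans_lt (by
          rw [Real.volume_closedBall]; exact ENNReal.ofReal_lt_top)).ne
      exact (ENNReal.toReal_le_toReal hfb hfa).1 h5
    have h6 := le_of_tendsto_of_tendsto h2 h1 hle
    simp at h6
  -- the threshold
  obtain ⟨x₀, hx₀G, hx₀⟩ : ∃ x₀ ∈ G, x₀ < -C := by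
    by_contra hcon
    push Not at hcon
    have h1 : volume (Iio (-C)) = 0 := by
      refine measure_mono_null (fun x hx => ?_) (ae_iff.1 hGae)
      intro hxG
      exact absurd hx (not_lt.2 (hcon x hxG))
    rw [Real.volume_Iio] at h1
    exact ENNReal.top_ne_zero h1
  have hne : (S ∩ G).Nonempty := ⟨x₀, hx₀G.2.1 hx₀, hx₀G⟩
  have hbdd : BddAbove (S ∩ G) := by
    refine ⟨C, fun x hx => ?_⟩
    by_contra hcon
    exact hx.2.2.2 (not_le.1 hcon) hx.1
  refine ⟨sSup (S ∩ G), ?_⟩
  have hpt : ∀ᵐ x : ℝ, x ≠ sSup (S ∩ G) := by
    rw [ae_iff]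
    simp
  filter_upwards [hGae, hpt] with x hx hxne
  constructor
  · intro hxS
    exact lt_of_le_of_ne (le_csSup hbdd ⟨hxS, hx⟩) hxne
  · intro hlt
    obtain ⟨y, hy, hxy⟩ := exists_lt_of_lt_csSup hne hlt
    exact key x hx y hy.2 hxy hy.1

end Pool.Agent.helper75.IQ
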